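import Pool.Agent.Q157.LD.Mov

/-! Two groups above `G` have a common upper bound. -/

set_option autoImplicit false

namespace Pool.Agent.Q157.LD

open FreeGroup (lift lift_apply_of)
open Filter

variable {κ ρ : Type}

/-- generating tuples with given class and trivial last entries -/
def Base {G Q : Type} [Group G] [Group Q] (π : G →* Q) (z : κ ⊕ ρ → Q) (g : κ ⊕ ρ → G) : Prop :=
  Gen g ∧ π ∘ g = z ∧ ∀ r, g (Sum.inr r) = 1

/-- the orbit of the base tuples -/
def Orb {G Q : Type} [Group G] [Group Q] (π : G →* Q) (z : κ ⊕ ρ → Q) (g : κ ⊕ ρ → G) : Prop :=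
  ∃ g₀, Base π z g₀ ∧ ∃ L : List ((κ ⊕ ρ) × FreeGroup (κ ⊕ ρ)), Val z L ∧ act L g₀ = g

lemma gen_split {G : Type} [Group G] {g : κ ⊕ ρ → G} (h : Gen g) (h1 : ∀ r, g (Sum.inr r) = 1)
    (x : G) : x ∈ Subgroup.closure (g '' Set.range Sum.inl) := by
  have h2 : Subgroup.closure (Set.range g) ≤ Subgroup.closure (g '' Set.range Sum.inl) := by
    rw [Subgroup.closure_le]
    rintro _ ⟨i, rfl⟩
    rcases i with i | r
    · exact Subgroup.subset_closure ⟨_, ⟨i, rfl⟩, rfl⟩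
    · rw [h1 r]
      exact one_mem _
  rw [h] at h2
  exact h2 (Subgroup.mem_top x)

/-- transitivity on the base tuples -/
theorem base_trans [Finite κ] [Finite ρ] {G Q : Type} [Group G] [Group Q] (π : G →* Q)
    {z : κ ⊕ ρ → Q} (σ : ρ → G) (hσ : ∀ r, π (σ r) = 1)
    (hσg : ∀ x, π x = 1 → x ∈ Subgroup.closure (Set.range σ)) {g g' : κ ⊕ ρ → G}
    (hg : Base π z g) (hg' : Base π z g') :
    ∃ L : List ((κ ⊕ ρ) × FreeGroup (κ ⊕ ρ)), Val z L ∧ act L g = g' := by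
  have hz : ∀ r, z (Sum.inr r) = 1 := by
    intro r
    rw [← hg.2.1, Function.comp_apply, hg.2.2 r, map_one]
  obtain ⟨a, ha⟩ : ∃ a : κ ⊕ ρ → G, a = Sum.elim (fun i => g (Sum.inl i)) σ := ⟨_, rfl⟩
  obtain ⟨b, hb⟩ : ∃ b : κ ⊕ ρ → G, b = Sum.elim (fun i => g' (Sum.inl i)) σ := ⟨_, rfl⟩
  have haz : π ∘ a = z := by
    funext i
    rcases i with i | r
    · rw [ha, Function.comp_apply, Sum.elim_inl, ← hg.2.1]
      rfl
    · rw [ha, Function.comp_apply, Sum.elim_inr, hσ, hz]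
  have hbz : π ∘ b = z := by
    funext i
    rcases i with i | r
    · rw [hb, Function.comp_apply, Sum.elim_inl, ← hg'.2.1]
      rfl
    · rw [hb, Function.comp_apply, Sum.elim_inr, hσ, hz]
  obtain ⟨L1, h1, h1'⟩ := reach π (Set.range Sum.inl) g a hg.2.1 haz
    (by rintro _ ⟨i, rfl⟩; rw [ha]; rfl) (fun x _ => gen_split hg.1 hg.2.2 x)
  obtain ⟨L2, h2, h2'⟩ := reach π (Set.range Sum.inr) a b haz hbz
    (by rintro _ ⟨i, rfl⟩; rw [ha, hb]; rfl) (fun x hx => by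
      have h3 : a '' Set.range Sum.inr = Set.range σ := by
        rw [← Set.range_comp, ha]
        rfl
      rw [h3]
      exact hσg x hx)
  obtain ⟨L3, h3, h3'⟩ := reach π (Set.range Sum.inl) b g' hbz hg'.2.1
    (by rintro _ ⟨i, rfl⟩; rw [hb]; rfl) (fun x _ => by
      have h4 : b '' Set.range Sum.inl = g' '' Set.range Sum.inl := by
        rw [← Set.range_comp, ← Set.range_comp, hb]
        rfl
      rw [h4]
      exact gen_split hg'.1 hg'.2.2 x)
  exact ⟨L1 ++ L2 ++ L3, (h1.append h2).append h3, by rw [act_append, act_append, h1', h2', h3']⟩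

lemma act_eq_lift {ι : Type} {G : Type} [Group G] (L : List (ι × FreeGroup ι)) (g : ι → G) :
    act L g = lift g ∘ act L FreeGroup.of := by
  rw [act_comp]
  congr 1
  funext i
  simp

lemma lift_act {ι : Type} {G : Type} [Group G] (L : List (ι × FreeGroup ι)) (g : ι → G)
    (w : FreeGroup ι) : lift (act L g) w = lift g (lift (act L FreeGroup.of) w) := by
  rw [act_eq_lift, lift_comp']

/-- constant class along an ultrafilter -/
lemma exists_const {X : Type} [Finite X] (U : Ultrafilter ℕ) (f : ℕ → X) :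
    ∃ c, ∀ᶠ n in U, f n = c := by
  by_contra h
  have h1 : ∀ c, ∀ᶠ n in U, f n ≠ c := fun c =>
    Ultrafilter.eventually_not.2 fun hc => h ⟨c, hc⟩
  have h2 : ∀ᶠ n in U, ∀ c, f n ≠ c := eventually_all.2 h1
  obtain ⟨n, hn⟩ := h2.exists
  exact hn (f n) rfl

/-- The words which vanish on the orbit. -/
noncomputable def Ker {G Q : Type} [Group G] [Group Q] (π : G →* Q) (z : κ ⊕ ρ → Q) :
    Subgroup (FreeGroup (κ ⊕ ρ)) :=
  ⨅ g : {g : κ ⊕ ρ → G // Orb π z g}, (lift g.1 : FreeGroup (κ ⊕ ρ) →* G).ker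

instance {G Q : Type} [Group G] [Group Q] (π : G →* Q) (z : κ ⊕ ρ → Q) : (Ker π z).Normal := by
  unfold Ker
  exact Subgroup.normal_iInf_normal fun _ => inferInstance

lemma mem_Ker {G Q : Type} [Group G] [Group Q] {π : G →* Q} {z : κ ⊕ ρ → Q}
    {w : FreeGroup (κ ⊕ ρ)} : w ∈ Ker π z ↔ ∀ g, Orb π z g → lift g w = 1 := by
  unfold Ker
  rw [Subgroup.mem_iInf]
  constructor
  · intro h g hg
    exact MonoidHom.mem_ker.1 (h ⟨g, hg⟩)
  · intro h g
    exact MonoidHom.mem_ker.2 (h g.1 g.2)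

lemma mk_iff {ι G : Type} [Group G] {M : Subgroup G} [M.Normal] {g g' : ι → G}
    (h : QuotientGroup.mk' M ∘ g = QuotientGroup.mk' M ∘ g') (w : FreeGroup ι) :
    lift g w ∈ M ↔ lift g' w ∈ M := by
  rw [← QuotientGroup.eq_one_iff, ← QuotientGroup.eq_one_iff]
  have h1 : QuotientGroup.mk' M (lift g w) = QuotientGroup.mk' M (lift g' w) := by
    rw [← lift_comp', ← lift_comp', h]
  exact ⟨fun h2 => h1.symm.trans h2, fun h2 => h1.trans h2⟩

theorem one_side [Finite κ] [Finite ρ] {G Q H : Type} [Group G] [Group Q] [Group H] (π : G →* Q)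
    (hsep : ∀ q : ℕ, q.Prime → ∀ w : G, w ≠ 1 → ∃ M : Subgroup G, M.Normal ∧ M.FiniteIndex ∧
      w ∉ M ∧ ∃ j : ℕ, ∀ x, π x = 1 → x ^ (q ^ j) ∈ M)
    {z : κ ⊕ ρ → Q} (σ : ρ → G) (hσ : ∀ r, π (σ r) = 1)
    (hσg : ∀ x, π x = 1 → x ∈ Subgroup.closure (Set.range σ))
    (U : Ultrafilter ℕ) (ξ : ℕ → κ ⊕ ρ → G) (hξ : ∀ᶠ n in U, Base π z (ξ n))
    (x : κ ⊕ ρ → H) (hx : Gen x)
    (hlim : ∀ w, ∀ᶠ n in U, (lift (ξ n) w = 1 ↔ lift x w = 1)) :
    LeN H (FreeGroup (κ ⊕ ρ) ⧸ Ker π z) := by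
  classical
  refine ⟨κ ⊕ ρ, inferInstance, fun i => QuotientGroup.mk (FreeGroup.of i), ?_, fun W => ?_⟩
  · unfold Gen
    have h1 : Set.range (fun i : κ ⊕ ρ => (QuotientGroup.mk (FreeGroup.of i) :
        FreeGroup (κ ⊕ ρ) ⧸ Ker π z)) = QuotientGroup.mk' (Ker π z) '' Set.range FreeGroup.of := by
      rw [← Set.range_comp]
      rfl
    rw [h1, ← MonoidHom.map_closure, FreeGroup.closure_range_of, ← MonoidHom.range_eq_map]
    exact MonoidHom.range_eq_top.2 (QuotientGroup.mk'_surjective _)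
  have ht : ∀ w : FreeGroup (κ ⊕ ρ), lift (fun i : κ ⊕ ρ => (QuotientGroup.mk (FreeGroup.of i) :
      FreeGroup (κ ⊕ ρ) ⧸ Ker π z)) w = 1 ↔ w ∈ Ker π z := by
    intro w
    rw [← QuotientGroup.eq_one_iff]
    have h1 := lift_comp' (QuotientGroup.mk' (Ker π z)) FreeGroup.of w
    have h2 : lift FreeGroup.of w = w := by
      rw [FreeGroup.lift_of_eq_id]
      rfl
    rw [h2] at h1
    have h3 : lift (fun i : κ ⊕ ρ => (QuotientGroup.mk (FreeGroup.of i) :
        FreeGroup (κ ⊕ ρ) ⧸ Ker π z)) w = QuotientGroup.mk' (Ker π z) w := h1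
    rw [h3]
    rfl
  -- the words which do not vanish
  let J := {w : FreeGroup (κ ⊕ ρ) // w ∈ W ∧ w ∉ Ker π z}
  have hJ : Finite J := by
    refine Finite.of_injective (fun w : J => (⟨w.1, w.2.1⟩ : W)) fun a b hab => ?_
    have := congrArg Subtype.val hab
    exact Subtype.ext this
  have hwit : ∀ w : J, ∃ g, Orb π z g ∧ lift g w.1 ≠ 1 := by
    intro w
    by_contra hcon
    push Not at hcon
    exact w.2.2 (mem_Ker.2 hcon)
  choose γ hγ1 hγ2 using hwit
  obtain ⟨m, ⟨enc⟩⟩ := Finite.exists_equiv_fin J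
  have hp : ∀ w : J, (Nat.nth Nat.Prime (enc w)).Prime := fun w => Nat.prime_nth_prime _
  choose M hMn hMf hMw jj hMj using fun w : J => hsep _ (hp w) _ (hγ2 w)
  have hcop : ∀ i j : J, i ≠ j → Nat.Coprime (Nat.nth Nat.Prime (enc i) ^ jj i)
      (Nat.nth Nat.Prime (enc j) ^ jj j) := by
    intro i j hij
    refine Nat.Coprime.pow _ _ ((Nat.coprime_primes (hp i) (hp j)).2 fun h => hij ?_)
    have h1 := Nat.nth_injective Nat.infinite_setOfPred_prime h
    exact enc.injective (Fin.ext h1)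
  -- constant class modulo all `M w`
  have hconst : ∀ w : J, ∃ c, ∀ᶠ n in U, QuotientGroup.mk' (M w) ∘ ξ n = c := by
    intro w
    have := hMf w
    have : Finite (G ⧸ M w) := Subgroup.finite_quotient_of_finiteIndex
    exact exists_const U _
  choose c hc using hconst
  have hcall : ∀ᶠ n in U, Base π z (ξ n) ∧ ∀ w : J, QuotientGroup.mk' (M w) ∘ ξ n = c w :=
    hξ.and (eventually_all.2 hc)
  obtain ⟨n₀, hn₀, hn₀c⟩ := hcall.exists
  have hLw : ∀ w : J, ∃ L : List ((κ ⊕ ρ) × FreeGroup (κ ⊕ ρ)), Val z L ∧ act L (ξ n₀) = γ w := by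
    intro w
    obtain ⟨g₀, hg₀, L, hL, hLg⟩ := hγ1 w
    obtain ⟨L1, h1, h2⟩ := base_trans π σ hσ hσg hn₀ hg₀
    exact ⟨L1 ++ L, h1.append hL, by rw [act_append, h2, hLg]⟩
  choose L hL1 hL2 using hLw
  obtain ⟨L', hL', hcrt⟩ := crt π M (fun w => Nat.nth Nat.Prime (enc w) ^ jj w) hcop
    (fun w x hx => hMj w x hx) L hL1
  refine ⟨act L' x, gen_act hL' hx, fun w hw => ?_⟩
  rw [ht w, lift_act]
  obtain ⟨w', hw'⟩ : ∃ w', w' = lift (act L' FreeGroup.of) w := ⟨_, rfl⟩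
  rw [← hw']
  by_cases hwK : w ∈ Ker π z
  · refine ⟨fun _ => hwK, fun _ => ?_⟩
    obtain ⟨n, hn1, hn2⟩ := ((hlim w').and hξ).exists
    rw [← hn1, hw', ← lift_act]
    exact mem_Ker.1 hwK _ ⟨ξ n, hn2, L', hL', rfl⟩
  · refine ⟨fun h => ?_, fun h => absurd h hwK⟩
    exfalso
    obtain ⟨n, hn1, hn2, hn3⟩ := ((hlim w').and hcall).exists
    have h1 := hn1.2 h
    rw [hw', ← lift_act] at h1
    obtain ⟨v, hv⟩ : ∃ v : J, v = ⟨w, hw, hwK⟩ := ⟨_, rfl⟩
    have := hMn v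
    have h2 : QuotientGroup.mk' (M v) ∘ act L' (ξ n) = QuotientGroup.mk' (M v) ∘ γ v := by
      rw [hcrt (ξ n) hn2.2.1 v, act_comp, hn3 v, ← hn₀c v, ← act_comp, hL2 v]
    have h3 := (mk_iff h2 w).1 (by rw [h1]; exact one_mem _)
    have h4 : lift (γ v) w = lift (γ v) v.1 := by rw [hv]
    rw [h4] at h3
    exact hMw v h3

lemma exists_seq {G H : Type} [Group G] [Group H] (h : LeN G H) :
    ∃ (ι : Type) (_ : Finite ι) (t : ι → H), Gen t ∧ ∃ s : ℕ → ι → G, (∀ n, Gen (s n)) ∧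
      ∀ w : FreeGroup ι, ∀ᶠ n in atTop, (lift (s n) w = 1 ↔ lift t w = 1) := by
  classical
  obtain ⟨ι, hι, t, ht, h⟩ := h
  have hc : Countable (FreeGroup ι) := by
    have : Countable ι := Finite.to_countable
    exact Function.Surjective.countable (f := FreeGroup.mk) Quot.mk_surjective
  obtain ⟨f, hf⟩ := exists_surjective_nat (FreeGroup ι)
  choose s hs1 hs2 using fun n : ℕ => h ((Finset.range (n + 1)).image f)
  refine ⟨ι, hι, t, ht, s, hs1, fun w => ?_⟩
  obtain ⟨m, rfl⟩ := hf w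
  filter_upwards [eventually_ge_atTop m] with n hn
  exact hs2 n _ (Finset.mem_image_of_mem f (Finset.mem_range.2 (by omega)))

lemma fg_of_LeN {G H : Type} [Group G] [Group H] (h : LeN G H) : Group.FG G := by
  obtain ⟨ι, hι, t, ht, h⟩ := h
  obtain ⟨s, hs, -⟩ := h ∅
  exact Group.fg_iff.2 ⟨Set.range s, hs, Set.finite_range s⟩

theorem amalg : S_amalg := by
  classical
  intro G H₁ H₂ _ _ _ hsep h1 h2
  have hFG : Group.FG G := fg_of_LeN h1
  obtain ⟨S, hSn, hSf, hsep⟩ := hsep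
  obtain ⟨κ₁, _, x, hx, xs, hxs, hxl⟩ := exists_seq h1
  obtain ⟨κ₂, _, y, hy, ys, hys, hyl⟩ := exists_seq h2
  have hQ : Finite (G ⧸ S) := Subgroup.finite_quotient_of_finiteIndex
  let U : Ultrafilter ℕ := hyperfilter ℕ
  have hU : (U : Filter ℕ) ≤ atTop := by
    rw [← Nat.cofinite_eq_atTop]
    exact hyperfilter_le_cofinite
  let π := QuotientGroup.mk' S
  have hπ : ∀ x, π x = 1 ↔ x ∈ S := fun x => QuotientGroup.eq_one_iff x
  -- generators of `S`
  have hSfg : Group.FG S := Subgroup.fg_of_index_ne_zero S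
  obtain ⟨T, hT1, hT2⟩ := (Subgroup.fg_iff S).1 ((Group.fg_iff_subgroup_fg S).1 hSfg)
  have hTf : Finite T := hT2
  let ρ : Type := T
  let σ : ρ → G := fun r => r.1
  have hσ : ∀ r, π (σ r) = 1 := fun r =>
    (hπ _).2 (hT1 ▸ Subgroup.subset_closure r.2)
  have hσg : ∀ x, π x = 1 → x ∈ Subgroup.closure (Set.range σ) := by
    intro x hx
    have h3 : Set.range σ = T := Subtype.range_coe
    rw [h3, hT1]
    exact (hπ _).1 hx
  obtain ⟨xb, hxb⟩ := exists_const U fun n => π ∘ xs n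
  obtain ⟨yb, hyb⟩ := exists_const U fun n => π ∘ ys n
  have gen_bar : ∀ {ι : Type} {g : ι → G}, Gen g → ∀ q : G ⧸ S, ∃ u : FreeGroup ι,
      lift (π ∘ g) u = q := by
    intro ι g hg q
    obtain ⟨a, rfl⟩ := QuotientGroup.mk'_surjective S q
    have h3 : a ∈ Subgroup.closure (g '' Set.univ) := by
      rw [Set.image_univ, hg]
      exact Subgroup.mem_top a
    obtain ⟨u, -, hu⟩ := exists_lift g Set.univ h3
    exact ⟨u, by rw [lift_comp', hu]⟩
  obtain ⟨n₁, hn₁⟩ := hxb.exists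
  obtain ⟨n₂, hn₂⟩ := hyb.exists
  have hv : ∀ j, ∃ v : FreeGroup κ₁, lift xb v = yb j := by
    intro j
    obtain ⟨u, hu⟩ := gen_bar (hxs n₁) (yb j)
    exact ⟨u, by rw [← hn₁]; exact hu⟩
  have hv' : ∀ i, ∃ v : FreeGroup κ₂, lift yb v = xb i := by
    intro i
    obtain ⟨u, hu⟩ := gen_bar (hys n₂) (xb i)
    exact ⟨u, by rw [← hn₂]; exact hu⟩
  choose v hv using hv
  choose v' hv' using hv'
  let z : (κ₁ ⊕ κ₂) ⊕ ρ → G ⧸ S := Sum.elim (Sum.elim xb yb) 1
  -- words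
  let A : (κ₁ ⊕ κ₂) ⊕ ρ → FreeGroup κ₁ := Sum.elim (Sum.elim FreeGroup.of v) 1
  let B : (κ₁ ⊕ κ₂) ⊕ ρ → FreeGroup κ₂ := Sum.elim (Sum.elim v' FreeGroup.of) 1
  have genA : ∀ {K : Type} [Group K] {g : κ₁ → K}, Gen g → Gen (lift g ∘ A) := by
    intro K _ g hg
    unfold Gen at *
    rw [eq_top_iff, ← hg]
    refine Subgroup.closure_mono ?_
    rintro _ ⟨i, rfl⟩
    exact ⟨Sum.inl (Sum.inl i), by simp [A]⟩
  have genB : ∀ {K : Type} [Group K] {g : κ₂ → K}, Gen g → Gen (lift g ∘ B) := by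
    intro K _ g hg
    unfold Gen at *
    rw [eq_top_iff, ← hg]
    refine Subgroup.closure_mono ?_
    rintro _ ⟨i, rfl⟩
    exact ⟨Sum.inl (Sum.inr i), by simp [B]⟩
  refine ⟨FreeGroup ((κ₁ ⊕ κ₂) ⊕ ρ) ⧸ Ker π z, inferInstance, ?_, ?_⟩
  · refine one_side π (fun q hq w hw => ?_) σ hσ hσg U (fun n => lift (xs n) ∘ A) ?_
      (lift x ∘ A) (genA hx) ?_
    · obtain ⟨M, h3, h4, h5, j, h6⟩ := hsep q hq w hw
      exact ⟨M, h3, h4, h5, j, fun x hx => h6 x ((hπ x).1 hx)⟩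
    · filter_upwards [hxb] with n hn
      refine ⟨genA (hxs n), ?_, fun r => by simp [A]⟩
      funext i
      rcases i with (i | i) | i
      · simp only [Function.comp_apply, A, Sum.elim_inl, lift_apply_of, z]
        exact congrFun hn i
      · simp only [Function.comp_apply, A, Sum.elim_inl, Sum.elim_inr, z]
        rw [← hv, ← hn, lift_comp']
      · simp [A, z]
    · intro w
      have h3 := hU (hxl (lift A w))
      filter_upwards [h3] with n hn
      rw [lift_comp', lift_comp']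
      exact hn
  · refine one_side π (fun q hq w hw => ?_) σ hσ hσg U (fun n => lift (ys n) ∘ B) ?_
      (lift y ∘ B) (genB hy) ?_
    · obtain ⟨M, h3, h4, h5, j, h6⟩ := hsep q hq w hw
      exact ⟨M, h3, h4, h5, j, fun x hx => h6 x ((hπ x).1 hx)⟩
    · filter_upwards [hyb] with n hn
      refine ⟨genB (hys n), ?_, fun r => by simp [B]⟩
      funext i
      rcases i with (i | i) | i
      · simp only [Function.comp_apply, B, Sum.elim_inl, z]
        rw [← hv', ← hn, lift_comp']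
      · simp only [Function.comp_apply, B, Sum.elim_inl, Sum.elim_inr, lift_apply_of, z]
        exact congrFun hn i
      · simp [B, z]
    · intro w
      have h3 := hU (hyl (lift B w))
      filter_upwards [h3] with n hn
      rw [lift_comp', lift_comp']
      exact hn

end Pool.Agent.Q157.LD
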