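import Pool.Agent.Q157.LD.Stm

/-! Moves on generating tuples. -/

set_option autoImplicit false

namespace Pool.Agent.Q157.LD

open FreeGroup (lift lift_apply_of)

variable {ι : Type}

/-- the word `u` does not use the letter `a` -/
def Av (a : ι) (u : FreeGroup ι) : Prop := u ∈ Subgroup.closure (FreeGroup.of '' {b | b ≠ a})

lemma lift_congr_set {G : Type} [Group G] {B : Set ι} {u : FreeGroup ι}
    (hu : u ∈ Subgroup.closure (FreeGroup.of '' B)) {g g' : ι → G} (h : ∀ b ∈ B, g b = g' b) :
    lift g u = lift g' u := by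
  induction hu using Subgroup.closure_induction with
  | mem x hx =>
    obtain ⟨b, hb, rfl⟩ := hx
    rw [lift_apply_of, lift_apply_of]
    exact h b hb
  | one => rw [map_one, map_one]
  | mul x y _ _ hx hy => rw [map_mul, map_mul, hx, hy]
  | inv x _ hx => rw [map_inv, map_inv, hx]

open Classical in
/-- multiply the entry `p.1` by the value of the word `p.2` -/
noncomputable def mv {G : Type} [Group G] (p : ι × FreeGroup ι) (g : ι → G) : ι → G :=
  Function.update g p.1 (g p.1 * lift g p.2)

/-- a list of moves -/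
noncomputable def act {G : Type} [Group G] : List (ι × FreeGroup ι) → (ι → G) → (ι → G)
  | [], g => g
  | p :: L, g => act L (mv p g)

open Classical in
lemma mv_same {G : Type} [Group G] (p : ι × FreeGroup ι) (g : ι → G) :
    mv p g p.1 = g p.1 * lift g p.2 := by
  unfold mv
  rw [Function.update_self]

open Classical in
lemma mv_ne {G : Type} [Group G] (p : ι × FreeGroup ι) (g : ι → G) {b : ι} (h : b ≠ p.1) :
    mv p g b = g b := by
  unfold mv
  rw [Function.update_of_ne h]

lemma lift_comp' {G Q : Type} [Group G] [Group Q] (φ : G →* Q) (g : ι → G) (u : FreeGroup ι) :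
    lift (φ ∘ g) u = φ (lift g u) := by
  have h : lift (φ ∘ g) = φ.comp (lift g) := by
    ext i
    simp
  rw [h]
  rfl

lemma mv_comp {G Q : Type} [Group G] [Group Q] (φ : G →* Q) (p : ι × FreeGroup ι) (g : ι → G) :
    φ ∘ mv p g = mv p (φ ∘ g) := by
  funext b
  by_cases h : b = p.1
  · subst h
    rw [Function.comp_apply, mv_same, mv_same, map_mul, lift_comp', Function.comp_apply]
  · rw [Function.comp_apply, mv_ne _ _ h, mv_ne _ _ h, Function.comp_apply]

lemma act_comp {G Q : Type} [Group G] [Group Q] (φ : G →* Q) (L : List (ι × FreeGroup ι))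
    (g : ι → G) : φ ∘ act L g = act L (φ ∘ g) := by
  induction L generalizing g with
  | nil => rfl
  | cons p L ih => rw [act, act, ih, mv_comp]

lemma act_append {G : Type} [Group G] (L L' : List (ι × FreeGroup ι)) (g : ι → G) :
    act (L ++ L') g = act L' (act L g) := by
  induction L generalizing g with
  | nil => rfl
  | cons p L ih => rw [List.cons_append, act, act, ih]

/-- the moves are defined without the changed letter, and their words are trivial at `z` -/
def Val {Q : Type} [Group Q] (z : ι → Q) (L : List (ι × FreeGroup ι)) : Prop :=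
  ∀ p ∈ L, Av p.1 p.2 ∧ lift z p.2 = 1

lemma Val.append {Q : Type} [Group Q] {z : ι → Q} {L L' : List (ι × FreeGroup ι)} (h : Val z L)
    (h' : Val z L') : Val z (L ++ L') := by
  intro p hp
  rcases List.mem_append.1 hp with hp | hp
  · exact h p hp
  · exact h' p hp

lemma mv_class {Q : Type} [Group Q] {z : ι → Q} {p : ι × FreeGroup ι} (h : lift z p.2 = 1) :
    mv p z = z := by
  funext b
  by_cases hb : b = p.1
  · subst hb
    rw [mv_same, h, mul_one]
  · rw [mv_ne _ _ hb]

lemma act_class {Q : Type} [Group Q] {z : ι → Q} {L : List (ι × FreeGroup ι)} (h : Val z L) :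
    act L z = z := by
  induction L with
  | nil => rfl
  | cons p L ih =>
    rw [act, mv_class (h p List.mem_cons_self).2]
    exact ih fun q hq => h q (List.mem_cons_of_mem _ hq)

lemma lift_mem {G : Type} [Group G] (g : ι → G) (B : Set ι) {u : FreeGroup ι}
    (hu : u ∈ Subgroup.closure (FreeGroup.of '' B)) : lift g u ∈ Subgroup.closure (g '' B) := by
  have h : (Subgroup.closure (FreeGroup.of '' B)).map (lift g) = Subgroup.closure (g '' B) := by
    rw [MonoidHom.map_closure, Set.image_image]
    simp
  rw [← h]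
  exact Subgroup.mem_map_of_mem _ hu

lemma exists_lift {G : Type} [Group G] (g : ι → G) (B : Set ι) {x : G}
    (hx : x ∈ Subgroup.closure (g '' B)) :
    ∃ u ∈ Subgroup.closure (FreeGroup.of '' B), lift g u = x := by
  have h : (Subgroup.closure (FreeGroup.of '' B)).map (lift g) = Subgroup.closure (g '' B) := by
    rw [MonoidHom.map_closure, Set.image_image]
    simp
  rw [← h] at hx
  exact hx

lemma gen_mv {G : Type} [Group G] {p : ι × FreeGroup ι} (hp : Av p.1 p.2) {g : ι → G}
    (hg : Gen g) : Gen (mv p g) := by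
  unfold Gen at *
  rw [eq_top_iff, ← hg, Subgroup.closure_le]
  rintro _ ⟨b, rfl⟩
  by_cases hb : b = p.1
  · subst hb
    have h1 : lift g p.2 ∈ Subgroup.closure (Set.range (mv p g)) := by
      have h2 : lift g p.2 = lift (mv p g) p.2 :=
        lift_congr_set hp fun b hb => (mv_ne _ _ hb).symm
      rw [h2]
      exact Subgroup.closure_mono (Set.image_subset_range _ _) (lift_mem _ _ hp)
    have h3 : g p.1 = mv p g p.1 * (lift g p.2)⁻¹ := by rw [mv_same, mul_inv_cancel_right]
    rw [SetLike.mem_coe, h3]
    exact mul_mem (Subgroup.subset_closure ⟨_, rfl⟩) (inv_mem h1)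
  · rw [SetLike.mem_coe, ← mv_ne p g hb]
    exact Subgroup.subset_closure ⟨_, rfl⟩

lemma gen_act {Q G : Type} [Group Q] [Group G] {z : ι → Q} {L : List (ι × FreeGroup ι)}
    (hL : Val z L) {g : ι → G} (hg : Gen g) : Gen (act L g) := by
  induction L generalizing g with
  | nil => exact hg
  | cons p L ih =>
    rw [act]
    exact ih (fun q hq => hL q (List.mem_cons_of_mem _ hq))
      (gen_mv (hL p List.mem_cons_self).1 hg)

lemma mv_inv {G : Type} [Group G] {p : ι × FreeGroup ι} (hp : Av p.1 p.2) (g : ι → G) :
    mv (p.1, p.2⁻¹) (mv p g) = g := by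
  funext b
  by_cases hb : b = p.1
  · subst hb
    have h1 := mv_same (p.1, p.2⁻¹) (mv p g)
    simp only at h1
    rw [h1, mv_same, map_inv]
    have h2 : lift (mv p g) p.2 = lift g p.2 := lift_congr_set hp fun b hb => mv_ne _ _ hb
    rw [h2, mul_inv_cancel_right]
  · have h1 : mv (p.1, p.2⁻¹) (mv p g) b = mv p g b := mv_ne _ _ hb
    rw [h1, mv_ne _ _ hb]

lemma exists_inv {Q : Type} [Group Q] {z : ι → Q} {L : List (ι × FreeGroup ι)} (hL : Val z L) :
    ∃ L' : List (ι × FreeGroup ι), Val z L' ∧ ∀ (G : Type) [Group G] (g : ι → G),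
      act L' (act L g) = g := by
  induction L with
  | nil => exact ⟨[], fun p hp => by simp at hp, fun G _ g => rfl⟩
  | cons p L ih =>
    obtain ⟨L', h1, h2⟩ := ih fun q hq => hL q (List.mem_cons_of_mem _ hq)
    have hp := hL p List.mem_cons_self
    refine ⟨L' ++ [(p.1, p.2⁻¹)], h1.append ?_, fun G _ g => ?_⟩
    · intro q hq
      rw [List.mem_singleton] at hq
      subst hq
      exact ⟨inv_mem hp.1, by rw [map_inv, hp.2, inv_one]⟩
    · rw [act, act_append, h2, act, act, mv_inv hp.1]

/-- the words raised to the power `c` -/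
def scale (c : ℕ) (L : List (ι × FreeGroup ι)) : List (ι × FreeGroup ι) :=
  L.map fun p => (p.1, p.2 ^ c)

lemma Val.scale {Q : Type} [Group Q] {z : ι → Q} {L : List (ι × FreeGroup ι)} (h : Val z L)
    (c : ℕ) : Val z (scale c L) := by
  intro q hq
  obtain ⟨p, hp, rfl⟩ := List.mem_map.1 hq
  exact ⟨pow_mem (h p hp).1 c, by rw [map_pow, (h p hp).2, one_pow]⟩

section

variable {G Q : Type} [Group G] [Group Q] (π : G →* Q) {z : ι → Q}

lemma scale_triv (M : Subgroup G) [M.Normal] {c : ℕ} (hc : ∀ x, π x = 1 → x ^ c ∈ M)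
    {L : List (ι × FreeGroup ι)} (hL : Val z L) (g : ι → G) (hg : π ∘ g = z) :
    QuotientGroup.mk' M ∘ act (scale c L) g = QuotientGroup.mk' M ∘ g := by
  induction L generalizing g with
  | nil => rfl
  | cons p L ih =>
    have hp := hL p List.mem_cons_self
    have hz : π (lift g p.2) = 1 := by rw [← lift_comp', hg]; exact hp.2
    have hz' : lift z ((p.1, p.2 ^ c) : ι × FreeGroup ι).2 = 1 := by
      simp only
      rw [map_pow, hp.2, one_pow]
    have h1 : act (scale c (p :: L)) g = act (scale c L) (mv (p.1, p.2 ^ c) g) := rfl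
    rw [h1, ih (fun q hq => hL q (List.mem_cons_of_mem _ hq)) _
      (by rw [mv_comp, hg, mv_class hz'])]
    funext b
    by_cases hb : b = p.1
    · subst hb
      have h2 := mv_same (p.1, p.2 ^ c) g
      simp only at h2
      rw [Function.comp_apply, h2, map_mul, map_pow (lift g)]
      have h3 : (QuotientGroup.mk' M) (lift g p.2 ^ c) = 1 :=
        (QuotientGroup.eq_one_iff _).2 (hc _ hz)
      rw [h3, mul_one]
      rfl
    · have h2 : mv (p.1, p.2 ^ c) g b = g b := mv_ne _ _ hb
      rw [Function.comp_apply, h2]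
      rfl

lemma scale_id (M : Subgroup G) [M.Normal] {c : ℕ} (hc : ∀ x, π x = 1 → x ^ c * x⁻¹ ∈ M)
    {L : List (ι × FreeGroup ι)} (hL : Val z L) (g : ι → G) (hg : π ∘ g = z) :
    QuotientGroup.mk' M ∘ act (scale c L) g = QuotientGroup.mk' M ∘ act L g := by
  induction L generalizing g with
  | nil => rfl
  | cons p L ih =>
    have hp := hL p List.mem_cons_self
    have hz : π (lift g p.2) = 1 := by rw [← lift_comp', hg]; exact hp.2
    have hz' : lift z ((p.1, p.2 ^ c) : ι × FreeGroup ι).2 = 1 := by
      simp only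
      rw [map_pow, hp.2, one_pow]
    have h1 : act (scale c (p :: L)) g = act (scale c L) (mv (p.1, p.2 ^ c) g) := rfl
    rw [h1, ih (fun q hq => hL q (List.mem_cons_of_mem _ hq)) _
      (by rw [mv_comp, hg, mv_class hz']), act_comp, act, act_comp]
    congr 1
    funext b
    by_cases hb : b = p.1
    · subst hb
      have h2 := mv_same (p.1, p.2 ^ c) g
      simp only at h2
      rw [Function.comp_apply, h2, Function.comp_apply, mv_same, map_mul, map_mul, map_pow (lift g)]
      congr 1
      have h4 := (QuotientGroup.eq_one_iff _).2 (hc _ hz)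
      have h3 : (QuotientGroup.mk' M) (lift g p.2 ^ c * (lift g p.2)⁻¹) = 1 := h4
      rw [map_mul, map_inv, mul_inv_eq_one] at h3
      exact h3
    · have h2 : mv (p.1, p.2 ^ c) g b = g b := mv_ne _ _ hb
      rw [Function.comp_apply, h2, Function.comp_apply, mv_ne _ _ hb]

/-- Chinese remainder theorem for lists of moves. -/
theorem crt {J : Type} [Finite J] (M : J → Subgroup G) [∀ j, (M j).Normal] (e : J → ℕ)
    (he : ∀ i j, i ≠ j → Nat.Coprime (e i) (e j)) (hM : ∀ j x, π x = 1 → x ^ e j ∈ M j)
    (L : J → List (ι × FreeGroup ι)) (hL : ∀ j, Val z (L j)) :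
    ∃ L' : List (ι × FreeGroup ι), Val z L' ∧ ∀ g : ι → G, π ∘ g = z → ∀ j,
      QuotientGroup.mk' (M j) ∘ act L' g = QuotientGroup.mk' (M j) ∘ act (L j) g := by
  classical
  have := Fintype.ofFinite J
  have key : ∀ A : Finset J, ∃ L' : List (ι × FreeGroup ι), Val z L' ∧ ∀ g : ι → G, π ∘ g = z →
      (∀ j ∈ A, QuotientGroup.mk' (M j) ∘ act L' g = QuotientGroup.mk' (M j) ∘ act (L j) g) ∧
      ∀ j ∉ A, QuotientGroup.mk' (M j) ∘ act L' g = QuotientGroup.mk' (M j) ∘ g := by
    intro A
    induction A using Finset.induction_on with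
    | empty =>
      exact ⟨[], fun p hp => by simp at hp, fun g _ => ⟨fun j hj => by simp at hj, fun j _ => rfl⟩⟩
    | insert i A hi ih =>
      obtain ⟨L', h1, h2⟩ := ih
      have hcop : Nat.Coprime (e i) (∏ j ∈ Finset.univ.erase i, e j) := by
        refine Nat.Coprime.prod_right fun j hj => he i j ?_
        exact (Finset.ne_of_mem_erase hj).symm
      obtain ⟨c, hc1, hc0⟩ := Nat.chineseRemainder hcop 1 0
      have hc0' : ∀ j, j ≠ i → e j ∣ c := by
        intro j hj
        have h3 : e j ∣ ∏ j ∈ Finset.univ.erase i, e j :=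
          Finset.dvd_prod_of_mem _ (Finset.mem_erase.2 ⟨hj, Finset.mem_univ j⟩)
        exact h3.trans ((Nat.modEq_zero_iff_dvd).1 hc0)
      have hid : ∀ x, π x = 1 → x ^ c * x⁻¹ ∈ M i := by
        intro x hx
        obtain ⟨k, hk⟩ := (Nat.modEq_iff_dvd.1 hc1.symm)
        have h3 : x ^ c * x⁻¹ = (x ^ e i) ^ k := by
          have h4 : (c : ℤ) = e i * k + 1 := by
            have : ((c : ℤ) - (1 : ℕ)) = e i * k := hk
            push_cast at this
            linarith
          rw [← zpow_natCast x c, h4, zpow_add, zpow_one, mul_inv_cancel_right, zpow_mul,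
            zpow_natCast]
        rw [h3]
        exact zpow_mem (hM i x hx) k
      have htr : ∀ j, j ≠ i → ∀ x, π x = 1 → x ^ c ∈ M j := by
        intro j hj x hx
        obtain ⟨k, hk⟩ := hc0' j hj
        rw [hk, pow_mul]
        exact pow_mem (hM j x hx) k
      refine ⟨L' ++ scale c (L i), h1.append ((hL i).scale c), fun g hg => ?_⟩
      have hg' : π ∘ act L' g = z := by rw [act_comp, hg, act_class h1]
      obtain ⟨h3, h4⟩ := h2 g hg
      refine ⟨fun j hj => ?_, fun j hj => ?_⟩
      · rw [act_append]
        rcases Finset.mem_insert.1 hj with rfl | hj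
        · rw [scale_id π (M j) hid (hL j) _ hg', act_comp, h4 j hi, ← act_comp]
        · have hji : j ≠ i := fun h => hi (h ▸ hj)
          rw [scale_triv π (M j) (htr j hji) (hL i) _ hg', h3 j hj]
      · rw [Finset.mem_insert, not_or] at hj
        rw [act_append, scale_triv π (M j) (htr j hj.1) (hL i) _ hg', h4 j hj.2]
  obtain ⟨L', h1, h2⟩ := key Finset.univ
  exact ⟨L', h1, fun g hg j => (h2 g hg).1 j (Finset.mem_univ j)⟩

/-- Changing the entries outside `B` if the entries in `B` generate the kernel. -/
theorem reach [Finite ι] (B : Set ι) (g g' : ι → G) (hg : π ∘ g = z) (hg' : π ∘ g' = z)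
    (hB : ∀ b ∈ B, g b = g' b) (hS : ∀ x, π x = 1 → x ∈ Subgroup.closure (g '' B)) :
    ∃ L : List (ι × FreeGroup ι), Val z L ∧ act L g = g' := by
  classical
  have := Fintype.ofFinite ι
  have key : ∀ A : Finset ι, (∀ a ∈ A, a ∉ B) → ∃ L : List (ι × FreeGroup ι), Val z L ∧
      act L g = fun i => if i ∈ A then g' i else g i := by
    intro A
    induction A using Finset.induction_on with
    | empty =>
      intro _
      exact ⟨[], fun p hp => by simp at hp, by funext i; simp [act]⟩
    | insert a A ha ih =>
      intro hA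
      obtain ⟨L, h1, h2⟩ := ih fun b hb => hA b (Finset.mem_insert_of_mem hb)
      have haB : a ∉ B := hA a (Finset.mem_insert_self a A)
      have hx : π ((g a)⁻¹ * g' a) = 1 := by
        have e1 : π (g a) = z a := congrFun hg a
        have e2 : π (g' a) = z a := congrFun hg' a
        rw [map_mul, map_inv, e1, e2, inv_mul_cancel]
      obtain ⟨u, hu, hux⟩ := exists_lift g B (hS _ hx)
      have hAB : ∀ b ∈ B, act L g b = g b := by
        intro b hb
        rw [h2]
        simp only
        rw [if_neg]
        exact fun h => hA b (Finset.mem_insert_of_mem h) hb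
      refine ⟨L ++ [(a, u)], h1.append ?_, ?_⟩
      · intro q hq
        rw [List.mem_singleton] at hq
        subst hq
        refine ⟨Subgroup.closure_mono (Set.image_mono fun b hb => ?_) hu, ?_⟩
        · rintro rfl
          exact haB hb
        · simp only
          rw [← hg, lift_comp', hux, hx]
      · rw [act_append, act, act]
        funext b
        by_cases hb : b = a
        · subst hb
          have h3 := mv_same (b, u) (act L g)
          simp only at h3
          rw [h3, if_pos (Finset.mem_insert_self b A), lift_congr_set hu hAB, hux, h2]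
          simp only
          rw [if_neg ha, mul_inv_cancel_left]
        · have h3 : mv (a, u) (act L g) b = act L g b := mv_ne _ _ hb
          rw [h3, h2]
          simp only [Finset.mem_insert, hb, false_or]
  obtain ⟨L, h1, h2⟩ := key (Finset.univ.filter (· ∉ B)) (fun a ha => (Finset.mem_filter.1 ha).2)
  refine ⟨L, h1, ?_⟩
  rw [h2]
  funext i
  by_cases hi : i ∈ B
  · simp [hi, hB i hi]
  · simp [hi]

end

end Pool.Agent.Q157.LD
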