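import Pool.Agent.Q157.LD.Stm

set_option autoImplicit false

namespace Pool.Agent.Q157.LD

theorem lift_lift {ι κ : Type} {H : Type} [Group H] (t : ι → H) (τ : κ → FreeGroup ι)
    (w : FreeGroup κ) :
    FreeGroup.lift t (FreeGroup.lift τ w) = FreeGroup.lift (fun j => FreeGroup.lift t (τ j)) w := by
  have h : (FreeGroup.lift t).comp (FreeGroup.lift τ)
      = FreeGroup.lift (fun j => FreeGroup.lift t (τ j)) := by
    ext j
    simp
  exact DFunLike.congr_fun h w

theorem Gen.exists_word {ι G : Type} [Group G] {g : ι → G} (hg : Gen g) (x : G) :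
    ∃ w : FreeGroup ι, FreeGroup.lift g w = x := by
  have h : x ∈ (FreeGroup.lift g).range := by
    rw [FreeGroup.range_lift_eq_closure]
    rw [hg]
    trivial
  exact h

theorem gen_of_words {ι κ G : Type} [Group G] {g : κ → G} {s : ι → G} (hs : Gen s)
    (h : ∀ i, ∃ w : FreeGroup κ, FreeGroup.lift g w = s i) : Gen g := by
  unfold Gen at *
  rw [eq_top_iff, ← hs, Subgroup.closure_le]
  rintro _ ⟨i, rfl⟩
  obtain ⟨w, hw⟩ := h i
  rw [← hw, ← FreeGroup.range_lift_eq_closure]
  exact ⟨w, rfl⟩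

theorem pre : S_pre := by
  classical
  intro G H K _ _ _ hGH hHK
  obtain ⟨ι, hι, t, ht, hW⟩ := hGH
  obtain ⟨κ, hκ, u, hu, hV⟩ := hHK
  have := Fintype.ofFinite ι
  refine ⟨κ, hκ, u, hu, fun W => ?_⟩
  obtain ⟨t', ht', hWt⟩ := hV W
  choose τ hτ using fun j => ht.exists_word (t' j)
  choose σ hσ using fun i => ht'.exists_word (t i)
  obtain ⟨s, hs, hs2⟩ := hW (W.image (FreeGroup.lift τ) ∪
    Finset.univ.image (fun i => FreeGroup.lift τ (σ i) * (FreeGroup.of i)⁻¹))
  refine ⟨fun j => FreeGroup.lift s (τ j), gen_of_words hs (fun i => ⟨σ i, ?_⟩), fun w hw => ?_⟩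
  · have h1 := (hs2 (FreeGroup.lift τ (σ i) * (FreeGroup.of i)⁻¹) (by
      rw [Finset.mem_union]; right
      exact Finset.mem_image_of_mem _ (Finset.mem_univ i))).2 (by
        rw [map_mul, lift_lift, map_inv, FreeGroup.lift_apply_of]
        have : (fun j => FreeGroup.lift t (τ j)) = t' := funext hτ
        rw [this, hσ, mul_inv_cancel])
    rw [map_mul, lift_lift, map_inv, FreeGroup.lift_apply_of, mul_inv_eq_one] at h1
    exact h1
  · rw [← lift_lift, hs2 _ (by
      rw [Finset.mem_union]; left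
      exact Finset.mem_image_of_mem _ hw), lift_lift]
    have : (fun j => FreeGroup.lift t (τ j)) = t' := funext hτ
    rw [this]
    exact hWt w hw

theorem seq : S_seq := by
  classical
  intro G H _ _
  constructor
  · rintro ⟨ι, hι, t, ht, hW⟩
    have := Fintype.ofFinite ι
    let e : ι ≃ Fin (Fintype.card ι) := Fintype.equivFin ι
    let k := Fintype.card ι
    have hcomp : ∀ (X : Type) [Group X] (x : ι → X) (w : FreeGroup (Fin k)),
        FreeGroup.lift (x ∘ e.symm) w = FreeGroup.lift x (FreeGroup.map e.symm w) := by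
      intro X _ x w
      have h : FreeGroup.lift (x ∘ e.symm) = (FreeGroup.lift x).comp (FreeGroup.map e.symm) := by
        ext j
        simp
      rw [h]
      rfl
    have hgen : ∀ (X : Type) [Group X] (x : ι → X), Gen x → Gen (x ∘ e.symm) := by
      intro X _ x hx
      unfold Gen at *
      rw [← hx, Set.range_comp, e.symm.range_eq_univ, Set.image_univ]
    have : Countable (FreeGroup (Fin k)) := inferInstance
    obtain ⟨f, hf⟩ := exists_surjective_nat (FreeGroup (Fin k))
    choose s hs hs2 using fun n : ℕ => hW ((Finset.range (n + 1)).image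
      (fun m => FreeGroup.map e.symm (f m)))
    refine ⟨k, t ∘ e.symm, hgen H t ht, fun n => s n ∘ e.symm, fun n => hgen G _ (hs n),
      fun w => ?_⟩
    obtain ⟨m, rfl⟩ := hf w
    filter_upwards [Filter.eventually_ge_atTop m] with n hn
    rw [hcomp, hcomp]
    exact hs2 n _ (Finset.mem_image.2 ⟨m, Finset.mem_range.2 (by omega), rfl⟩)
  · rintro ⟨k, t, ht, s, hs, hw⟩
    refine ⟨Fin k, inferInstance, t, ht, fun W => ?_⟩
    have h : ∀ᶠ n in Filter.atTop, ∀ w ∈ W, (FreeGroup.lift (s n) w = 1 ↔ FreeGroup.lift t w = 1) := by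
      rw [Filter.eventually_all_finset]
      exact fun w _ => hw w
    obtain ⟨n, hn⟩ := h.exists
    exact ⟨s n, hs n, hn⟩

end Pool.Agent.Q157.LD
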