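import Mathlib

/-!
# Project LD (MP_81bbc5_al): directedness of the components of virtually nilpotent groups

`LeN G H` means `G ⪯ H` (`H` is in the closure of the isomorphism class of `G` in the space of marked groups):
there is a finite generating tuple `t` of `H` such that for every finite set `W` of words there is a generating tuple
`s` of `G` which satisfies the same relations from `W` as `t`.

Each step `S_x : Prop` has a docstring with its proof.
-/

set_option autoImplicit false

namespace Pool.Agent.Q157.LD

/-- the tuple `g` generates the group -/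
def Gen {ι G : Type} [Group G] (g : ι → G) : Prop := Subgroup.closure (Set.range g) = ⊤

/-- `G ⪯ H` -/
def LeN (G H : Type) [Group G] [Group H] : Prop :=
  ∃ (ι : Type) (_ : Finite ι) (t : ι → H), Gen t ∧ ∀ W : Finset (FreeGroup ι),
    ∃ s : ι → G, Gen s ∧ ∀ w ∈ W, FreeGroup.lift s w = 1 ↔ FreeGroup.lift t w = 1

/-- SEP. A finitely generated virtually nilpotent group has a normal subgroup `S` of finite index such that for every
prime `q` and every `w ≠ 1` there is a normal subgroup `M` of finite index of `G` with `w ∉ M` and `x ^ (q ^ j) ∈ M`
for all `x ∈ S`.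

Proof. Let `N` be nilpotent of finite index; its normal core `N'` is nilpotent, normal, of finite index, finitely
generated (`Subgroup.fg_of_index_ne_zero`), and all its subgroups are finitely generated (`nil_maxC` in
`Pool/Agent/H53R2/FinNil.lean`). (1) There is `S ≤ N'`, normal and of finite index in `G`, without torsion: e.g. by
`polyInd` (`Pool/Agent/Helper294/HallC/Base.lean`); or: the elements of finite order of a nilpotent group form a
subgroup, it is finitely generated, so finite (`Helper111.EN.finite_of_fg_nilpotent`), and by `Helper111.EN.resid`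
(with the empty set of primes, `Pool/Agent/Helper111/EN/Resid.lean`) a normal subgroup of finite index of `N'` misses
its finitely many non-trivial elements; take the normal core in `G`. (2) `Helper111.EN.resid` with `K = S`,
`π = {p prime, p ≠ q}` gives for every `w ≠ 1` in `S` a normal subgroup `N0` of `S` with `w ∉ N0` and `S ⧸ N0` a
finite `q`-group (exponent dividing `q ^ j`); `M` = the normal core in `G` of the image of `N0` in `G`: for `x ∈ S`
all conjugates of `x ^ (q ^ j)` are `q ^ j`-th powers of elements of `S`. If `w ∉ S` use `M = S`, `j = 0`. -/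
def S_sep : Prop := ∀ (G : Type) [Group G] [Group.FG G], Group.IsVirtuallyNilpotent G →
  ∃ S : Subgroup G, S.Normal ∧ S.FiniteIndex ∧ ∀ q : ℕ, q.Prime → ∀ w : G, w ≠ 1 →
    ∃ M : Subgroup G, M.Normal ∧ M.FiniteIndex ∧ w ∉ M ∧ ∃ j : ℕ, ∀ x ∈ S, x ^ (q ^ j) ∈ M

/-- UP. If `G` is virtually nilpotent and `G ⪯ H` then `H` is virtually nilpotent.

Proof. Let `N` be a normal nilpotent subgroup of finite index of `G` (normal core), `lowerCentralSeries N c = ⊥`, and
`t : ι → H` as in `LeN`. There are finitely many homomorphisms `α : FreeGroup ι → G ⧸ N`. Claim: for some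
`α`, for every `w` in `lowerCentralSeries (ker α) c` (as a subgroup of `FreeGroup ι`, i.e. mapped by the subtype)
`lift t w = 1`. Otherwise choose for every `α` such a word `w_α` with `lift t w_α ≠ 1`, let `W` be the set of these words,
`s` the tuple of `G` for `W` and `α` the composition of `lift s` with `G → G ⧸ N`: `lift s` maps `ker α` into `N`, so
`lowerCentralSeries (ker α) c` into `lowerCentralSeries N c = ⊥`, so `lift s w_α = 1`, contradiction to
`lift s w_α = 1 ↔ lift t w_α = 1`. Then the image of `ker α` under `lift t` is nilpotent of finite index in `H`. -/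
def S_up : Prop := ∀ (G H : Type) [Group G] [Group H], Group.IsVirtuallyNilpotent G → LeN G H →
  Group.IsVirtuallyNilpotent H

/-- DOWN. If `H` is virtually nilpotent and `G ⪯ H` then `G` is virtually nilpotent.

Proof. Let `N` be a normal nilpotent subgroup of finite index of `H`, `t : ι → H` as in `LeN`, `V` the preimage of `N` under
`lift t` in `FreeGroup ι`: normal of finite index, so finitely generated (`Subgroup.fg_of_index_ne_zero`), by a finite
set `X`. The images of the simple commutators `[…[[x₁, x₂], x₃], …, x_{c+1}]` of elements of `X` in `N` are trivial, where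
`lowerCentralSeries N c = ⊥`. Let `W` be the finite set of these simple commutators and `s` the tuple of `G` for `W`. The
image `V'` of `V` under `lift s` is normal of finite index in `G` and generated by the images of `X`, and the simple
commutators of length `c + 1` of these generators are trivial. Lemma: if a group `K` is generated by a set `X`, then
`lowerCentralSeries K i` is contained in (equal to) the normal closure of the set `C i` of simple commutators of length
`i + 1` of elements of `X` (`C 0 = X`, `C (i + 1) = {⁅a, x⁆ | a ∈ C i, x ∈ X}`). Proof: the set of the `g` with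
`⁅g, h⁆ ∈ normalClosure (C (i + 1))` for all `h` is a normal subgroup (the preimage of the center of the quotient) and
contains `C i`, because for `a ∈ C i` the set of `h` with `⁅a, h⁆ ∈ normalClosure (C (i + 1))` (the centralizer
of the image of `a`) is a subgroup which contains `X`. So `V'` is nilpotent. -/
def S_down : Prop := ∀ (G H : Type) [Group G] [Group H], Group.IsVirtuallyNilpotent H → LeN G H →
  Group.IsVirtuallyNilpotent G

/-- PRE. `⪯` is transitive.

Proof. Let `t : ι → H` be the tuple for `G ⪯ H`, `u : κ → K` the tuple for `H ⪯ K`; we use `u` for `G ⪯ K`. Let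
`W` be a finite set of words in `κ` and `t' : κ → H` the generating tuple for `W`. Choose words `τ j : FreeGroup ι`
with `lift t (τ j) = t' j` (`j : κ`) and words `σ i : FreeGroup κ` with `lift t' (σ i) = t i`. Use `G ⪯ H` for the
finite set of the words `lift τ w` (`w ∈ W`) and `(lift τ (σ i)) * (of i)⁻¹` (`i : ι`), trivial in `H`; get
`s : ι → G`. Then `g j = lift s (τ j)` generates `G` (`lift g (σ i) = s i`) and `lift g w = lift s (lift τ w)`. -/
def S_pre : Prop := ∀ (G H K : Type) [Group G] [Group H] [Group K], LeN G H → LeN H K → LeN G K

/-- SEQ. `LeN` gives sequences of generating `k`-tuples.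

Proof. `FreeGroup ι` is countable: it is the union of an increasing sequence of finite sets; reindex `ι ≃ Fin k`. -/
def S_seq : Prop := ∀ (G H : Type) [Group G] [Group H], LeN G H ↔
  ∃ (k : ℕ) (t : Fin k → H), Gen t ∧ ∃ s : ℕ → Fin k → G, (∀ n, Gen (s n)) ∧
    ∀ w : FreeGroup (Fin k), ∀ᶠ n in Filter.atTop, (FreeGroup.lift (s n) w = 1 ↔ FreeGroup.lift t w = 1)

/-- AMALG (helper157): two groups above `G` have a common upper bound. -/
def S_amalg : Prop := ∀ (G H₁ H₂ : Type) [Group G] [Group H₁] [Group H₂],
  (∃ S : Subgroup G, S.Normal ∧ S.FiniteIndex ∧ ∀ q : ℕ, q.Prime → ∀ w : G, w ≠ 1 →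
    ∃ M : Subgroup G, M.Normal ∧ M.FiniteIndex ∧ w ∉ M ∧ ∃ j : ℕ, ∀ x ∈ S, x ^ (q ^ j) ∈ M) →
  LeN G H₁ → LeN G H₂ → ∃ (U : Type) (_ : Group U), LeN H₁ U ∧ LeN H₂ U

end Pool.Agent.Q157.LD
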