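import Pool.Agent.Q157.LD.Amal
import Pool.Agent.Q157.LD.Pre
import Pool.Agent.Q94.LD.Up

/-! Components are directed. -/

set_option autoImplicit false

namespace Pool.Agent.Q157.LD

/-- upper bounds of two elements of a component -/
theorem pair (hsep : S_sep) (hup : S_up) (hdown : S_down) (hpre : S_pre)
    {X : Type 1} (ty : X → Type) [∀ x, Group (ty x)] (hty : ∀ x, Group.FG (ty x))
    (hex : ∀ (U : Type) [Group U], Group.FG U → ∃ x, Nonempty (ty x ≃* U))
    {a b : X} (h : Relation.EqvGen (fun a b => LeN (ty a) (ty b)) a b)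
    (ha : Group.IsVirtuallyNilpotent (ty a)) :
    Group.IsVirtuallyNilpotent (ty b) ∧ ∃ U : X, LeN (ty a) (ty U) ∧ LeN (ty b) (ty U) := by
  have hrefl : ∀ x, LeN (ty x) (ty x) := by
    intro x
    obtain ⟨S, hS1, hS2⟩ := Group.fg_iff.1 (hty x)
    have : Finite S := hS2
    exact ⟨S, inferInstance, fun s => s.1, by unfold Gen; rw [Subtype.range_coe]; exact hS1,
      fun W => ⟨fun s => s.1, by unfold Gen; rw [Subtype.range_coe]; exact hS1, fun w _ => Iff.rfl⟩⟩
  have hvn : ∀ a b, Relation.EqvGen (fun a b => LeN (ty a) (ty b)) a b →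
      (Group.IsVirtuallyNilpotent (ty a) ↔ Group.IsVirtuallyNilpotent (ty b)) := by
    intro a b h
    induction h with
    | rel a b h => exact ⟨fun h1 => hup _ _ h1 h, fun h1 => hdown _ _ h1 h⟩
    | refl a => exact Iff.rfl
    | symm a b _ ih => exact ih.symm
    | trans a b c _ _ ih1 ih2 => exact ih1.trans ih2
  refine ⟨(hvn a b h).1 ha, ?_⟩
  induction h with
  | rel a b h => exact ⟨b, h, hrefl b⟩
  | refl a => exact ⟨a, hrefl a, hrefl a⟩
  | symm a b h ih =>
    obtain ⟨U, h1, h2⟩ := ih ((hvn a b h).2 ha)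
    exact ⟨U, h2, h1⟩
  | trans a b c hab hbc ih1 ih2 =>
    have hb := (hvn a b hab).1 ha
    obtain ⟨U, h1, h2⟩ := ih1 ha
    obtain ⟨V, h3, h4⟩ := ih2 hb
    have := hty b
    obtain ⟨W, hW, h5, h6⟩ := amalg (ty b) (ty U) (ty V) (hsep _ hb) h2 h3
    obtain ⟨κ, hκ, t, ht, -⟩ := id h5
    have hfg : Group.FG W := Group.fg_iff.2 ⟨Set.range t, ht, Set.finite_range t⟩
    obtain ⟨w, ⟨e⟩⟩ := hex W hfg
    have hWw : LeN W (ty w) := by
      refine ⟨κ, hκ, e.symm ∘ t, ?_, fun A => ⟨t, ht, fun w _ => ?_⟩⟩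
      · unfold Gen at *
        rw [Set.range_comp]
        have h7 : Subgroup.closure (e.symm '' Set.range t) =
            (Subgroup.closure (Set.range t)).map e.symm.toMonoidHom := by
          rw [MonoidHom.map_closure]
          rfl
        rw [h7, ht, ← MonoidHom.range_eq_map]
        exact MonoidHom.range_eq_top.2 e.symm.surjective
      · have h7 := lift_comp' e.symm.toMonoidHom t w
        have h8 : FreeGroup.lift (e.symm ∘ t) w = e.symm (FreeGroup.lift t w) := h7
        rw [h8]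
        exact (map_eq_one_iff e.symm e.symm.injective).symm
    exact ⟨w, hpre _ _ _ (hpre _ _ _ h1 h5) hWw, hpre _ _ _ (hpre _ _ _ h4 h6) hWw⟩

end Pool.Agent.Q157.LD
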